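import Pool.Agent.H57.UGB.Api
import Pool.Agent.H67.UGB.Base

/-!
# A polynomial in the coefficients and the coordinates which does not vanish at the generic point
-/

set_option autoImplicit false

open MvPolynomial

namespace Pool.Agent.H57.UGB

open Pool.Agent.H47.KB Pool.Agent.H47.UG

namespace Nonz

/-- Algebra maps which agree on the variables of `B` agree at `B`. -/
theorem alg_congr {σ R : Type} [CommRing R] [Algebra ℂ R] (f g : MvPolynomial σ ℂ →ₐ[ℂ] R) (B : MvPolynomial σ ℂ)
    (h : ∀ v ∈ B.vars, f (X v) = g (X v)) : f B = g B :=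
  hom_congr_vars (f₁ := (f : MvPolynomial σ ℂ →+* R)) (f₂ := (g : MvPolynomial σ ℂ →+* R))
    (by
      ext c
      simp only [RingHom.comp_apply, RingHom.coe_coe, ← algebraMap_eq]
      rw [AlgHom.commutes, AlgHom.commutes]) (fun i hi _ => h i hi) rfl

/-- The monomial of degree `d` in `X_0`. -/
noncomputable def a0 (n d : ℕ) : Fin (n + 2) →₀ ℕ := Finsupp.single 0 d

theorem a0_mem (n d : ℕ) : a0 n d ∈ (Finset.univ : Finset (Fin (n + 2))).finsuppAntidiag d := by
  rw [Finset.mem_finsuppAntidiag]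
  refine ⟨?_, Finset.subset_univ _⟩
  simp [a0, Finsupp.single_apply]

/-- Substitution: solve `F(x) = 0` for the coefficient of `X_0^d`, and put `X_{0,0} = 1`. -/
noncomputable def S (n d k : ℕ) : JR n k →ₐ[ℂ] JR n k :=
  aeval (Sum.elim
    (fun α => if α = a0 n d then
      -∑ β ∈ ((Finset.univ : Finset (Fin (n + 2))).finsuppAntidiag d).erase (a0 n d),
        X (Sum.inl β) * ∏ j, (if j = 0 then (1 : JR n k) else X (Sum.inr (j, 0))) ^ β j
      else X (Sum.inl α))
    fun v => if v.1 = 0 then 1 else X (Sum.inr v))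

theorem eval_gen {R : Type} [CommRing R] (n d : ℕ) (a : (Fin (n + 2) →₀ ℕ) → R) (p : Fin (n + 2) → R) :
    eval p (gen n d a) = ∑ α ∈ (Finset.univ : Finset (Fin (n + 2))).finsuppAntidiag d,
      a α * ∏ j, p j ^ α j := by
  unfold gen
  rw [map_sum]
  refine Finset.sum_congr rfl fun α _ => ?_
  rw [eval_monomial, Finsupp.prod_fintype]
  intro i
  rw [pow_zero]

theorem prod_a0 {R : Type} [CommRing R] (n d : ℕ) (p : Fin (n + 2) → R) (hp : p 0 = 1) :
    ∏ j, p j ^ (a0 n d) j = 1 := by
  refine Finset.prod_eq_one fun j _ => ?_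
  unfold a0
  by_cases hj : j = 0
  · rw [hj, hp, one_pow]
  · rw [Finsupp.single_apply, if_neg (Ne.symm hj), pow_zero]

/-- Every value of the substitution is a point of the universal hypersurface. -/
theorem eval_S (n d k : ℕ) (v : Vr n k → ℂ) :
    eval (fun j => eval v (S n d k (X (Sum.inr (j, 0))))) (gen n d fun α => eval v (S n d k (X (Sum.inl α)))) = 0 := by
  have h0 : eval v (S n d k (X (Sum.inr (0, 0)))) = 1 := by
    unfold S
    rw [aeval_X, Sum.elim_inr, if_pos rfl, map_one]
  rw [eval_gen, ← Finset.add_sum_erase _ _ (a0_mem n d), prod_a0 n d _ h0, mul_one]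
  have h1 : eval v (S n d k (X (Sum.inl (a0 n d)))) =
      -∑ β ∈ ((Finset.univ : Finset (Fin (n + 2))).finsuppAntidiag d).erase (a0 n d),
        eval v (S n d k (X (Sum.inl β))) * ∏ j, eval v (S n d k (X (Sum.inr (j, 0)))) ^ β j := by
    have h2 : S n d k (X (Sum.inl (a0 n d))) =
        -∑ β ∈ ((Finset.univ : Finset (Fin (n + 2))).finsuppAntidiag d).erase (a0 n d),
        X (Sum.inl β) * ∏ j, (if j = 0 then (1 : JR n k) else X (Sum.inr (j, 0))) ^ β j := by
      unfold S
      rw [aeval_X, Sum.elim_inl, if_pos rfl]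
    rw [h2, map_neg, map_sum]
    congr 1
    refine Finset.sum_congr rfl fun β hβ => ?_
    rw [map_mul, map_prod]
    congr 1
    · unfold S
      rw [aeval_X, Sum.elim_inl, if_neg (Finset.ne_of_mem_erase hβ)]
    · refine Finset.prod_congr rfl fun j _ => ?_
      rw [map_pow]
      congr 2
      unfold S
      rw [aeval_X, Sum.elim_inr]
  rw [h1, neg_add_cancel]

section ff

variable {n d : ℕ} (T : FF d (genK n d)) (k : ℕ)

/-- At the generic point the coefficient of `X_0^d` is the solution of the equation. -/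
theorem gen_x : ∑ α ∈ (Finset.univ : Finset (Fin (n + 2))).finsuppAntidiag d,
    algebraMap (KK n) T.L (algebraMap (Cof n) (KK n) (X α)) * ∏ j, T.x j ^ α j = 0 := by
  have hom : (genK n d).IsHomogeneous d := by
    unfold genK gen
    refine IsHomogeneous.sum _ _ _ fun α hα => ?_
    apply isHomogeneous_monomial
    rw [Finset.mem_finsuppAntidiag] at hα
    rw [← hα.1, Finsupp.degree_eq_sum]
  have h := (T.ker d (genK n d) hom).mpr dvd_rfl
  unfold genK gen at h
  rw [map_sum] at h
  rw [← h]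
  refine Finset.sum_congr rfl fun α _ => ?_
  rw [aeval_monomial, Finsupp.prod_fintype]
  intro i
  rw [pow_zero]

theorem zk_inl (α : Fin (n + 2) →₀ ℕ) : zk T k (X (Sum.inl α)) = aK T k α := by
  unfold zk pt
  rw [aeval_X, Sum.elim_inl]

theorem zk_inr (j : Fin (n + 2)) : zk T k (X (Sum.inr (j, 0))) = C (T.x j) := by
  unfold zk pt
  rw [aeval_X, Sum.elim_inr]
  change PowerSeries.coeff 0 (ser T k (T.x j)) = C (T.x j)
  unfold ser
  rw [PowerSeries.coeff_mk, Nat.factorial_zero, Nat.cast_one, inv_one, map_one, C_1, one_mul,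
    Function.iterate_zero_apply]
  unfold rk
  rw [← algebraMap_eq, AlgHom.commutes, algebraMap_eq]

theorem S_a0 : S n d k (X (Sum.inl (a0 n d))) =
    -∑ β ∈ ((Finset.univ : Finset (Fin (n + 2))).finsuppAntidiag d).erase (a0 n d),
      X (Sum.inl β) * ∏ j, (if j = 0 then (1 : JR n k) else X (Sum.inr (j, 0))) ^ β j := by
  unfold S
  rw [aeval_X, Sum.elim_inl, if_pos rfl]

theorem S_zero (s : Fin (k + 1)) : S n d k (X (Sum.inr (0, s))) = 1 := by
  unfold S
  rw [aeval_X, Sum.elim_inr, if_pos rfl]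

theorem zk_S (B : JR n k) (hB : Base B) : zk T k (S n d k B) = zk T k B := by
  refine alg_congr ((zk T k).comp (S n d k)) (zk T k) B fun v hv => ?_
  rw [AlgHom.comp_apply]
  rcases v with α | ⟨j, s⟩
  · by_cases hα : α = a0 n d
    · subst hα
      rw [S_a0, map_neg, map_sum, zk_inl]
      have h3 := gen_x T
      rw [← Finset.add_sum_erase _ _ (a0_mem n d), prod_a0 n d _ T.x_zero, mul_one] at h3
      have h4 : (aK T k (a0 n d)) = C (-∑ α ∈ ((Finset.univ : Finset (Fin (n + 2))).finsuppAntidiag d).erase (a0 n d),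
          algebraMap (KK n) T.L (algebraMap (Cof n) (KK n) (X α)) * ∏ j, T.x j ^ α j) :=
        congrArg (fun u => (C u : Bk T k)) (eq_neg_of_add_eq_zero_left h3)
      rw [h4, map_neg, map_sum]
      congr 1
      refine Finset.sum_congr rfl fun β _ => ?_
      rw [map_mul, map_mul, map_prod, map_prod, zk_inl]
      unfold aK
      congr 1
      refine Finset.prod_congr rfl fun j _ => ?_
      rw [map_pow, map_pow]
      congr 1
      by_cases hj : j = 0
      · rw [if_pos hj, map_one, hj, T.x_zero, C_1]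
      · rw [if_neg hj, zk_inr]
    · unfold S
      rw [aeval_X, Sum.elim_inl, if_neg hα]
  · have hs : s = 0 := hB _ hv
    subst hs
    by_cases hj : j = 0
    · subst hj
      rw [S_zero, map_one, zk_inr, T.x_zero, C_1]
    · unfold S
      rw [aeval_X, Sum.elim_inr, if_neg hj]

/-- A point of the universal hypersurface where `B` does not vanish. -/
theorem exists_pt (B : JR n k) (hB : Base B) (h : zk T k B ≠ 0) :
    ∃ (a : (Fin (n + 2) →₀ ℕ) → ℂ) (p : Vec n), p 0 = 1 ∧ eval p (gen n d a) = 0 ∧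
      pt a (fun j => PowerSeries.C (p j)) B ≠ 0 := by
  have h1 : S n d k B ≠ 0 := by
    intro h0
    rw [← zk_S T k B hB, h0, map_zero] at h
    exact h rfl
  have h2 : ∃ v : Vr n k → ℂ, eval v (S n d k B) ≠ 0 := by
    by_contra hcon
    push Not at hcon
    exact h1 (MvPolynomial.funext fun x => by rw [hcon x, map_zero])
  obtain ⟨v, hv⟩ := h2
  refine ⟨fun α => eval v (S n d k (X (Sum.inl α))), fun j => eval v (S n d k (X (Sum.inr (j, 0)))), ?_,
    eval_S n d k v, ?_⟩
  · change eval v (S n d k (X (Sum.inr (0, 0)))) = 1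
    rw [S_zero, map_one]
  · intro h0
    apply hv
    rw [← h0]
    have h3 : eval v (S n d k B) = ((aeval v : JR n k →ₐ[ℂ] ℂ).comp (S n d k)) B := by
      rw [AlgHom.comp_apply, aeval_eq_eval]
    rw [h3]
    refine alg_congr _ _ B fun w hw => ?_
    rw [AlgHom.comp_apply, aeval_eq_eval]
    rcases w with α | ⟨j, s⟩
    · rw [pt_inl]
    · have hs : s = 0 := hB _ hw
      subst hs
      rw [pt_inr]
      change _ = PowerSeries.coeff 0 (PowerSeries.C (eval v (S n d k (X (Sum.inr (j, 0))))))
      rw [PowerSeries.coeff_zero_C]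

end ff

end Nonz

section ff

variable {n d : ℕ} (T : FF d (genK n d)) (k : ℕ)

theorem nonz (_hd : 1 ≤ d) (B : JR n k) (hB : Base B) (h : zk T k B ≠ 0) :
    ∃ (a : (Fin (n + 2) →₀ ℕ) → ℂ) (p : Vec n), p 0 = 1 ∧ eval p (gen n d a) = 0 ∧
      pt a (fun j => PowerSeries.C (p j)) B ≠ 0 :=
  Nonz.exists_pt T k B hB h

end ff

end Pool.Agent.H57.UGB
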